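import Mathlib
import Pool.Agent.H97.TA.V5.Data

set_option autoImplicit false

/-!
# Rows of the check, part 0
-/

namespace Pool.Agent.H97.TA.V5.C0

open Pool.Agent.H97.TA Data

theorem a0 : D.rows 0 10 = true := by decide +kernel

theorem a1 : D.rows 10 10 = true := by decide +kernel

theorem a2 : D.rows 20 10 = true := by decide +kernel

theorem a3 : D.rows 30 10 = true := by decide +kernel

theorem a4 : D.rows 40 10 = true := by decide +kernel

theorem a5 : D.rows 50 10 = true := by decide +kernel

theorem a6 : D.rows 60 10 = true := by decide +kernel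

theorem a7 : D.rows 70 10 = true := by decide +kernel

theorem a8 : D.rows 80 10 = true := by decide +kernel

theorem a9 : D.rows 90 10 = true := by decide +kernel

theorem all (r : ℕ) (h1 : 0 ≤ r) (h2 : r < 100) : D.all r = true := by
  rcases Nat.lt_or_ge r 10 with h | h1
  · exact Dat.rows_sound a0 r h1 (by omega)
  rcases Nat.lt_or_ge r 20 with h | h1
  · exact Dat.rows_sound a1 r h1 (by omega)
  rcases Nat.lt_or_ge r 30 with h | h1
  · exact Dat.rows_sound a2 r h1 (by omega)
  rcases Nat.lt_or_ge r 40 with h | h1
  · exact Dat.rows_sound a3 r h1 (by omega)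
  rcases Nat.lt_or_ge r 50 with h | h1
  · exact Dat.rows_sound a4 r h1 (by omega)
  rcases Nat.lt_or_ge r 60 with h | h1
  · exact Dat.rows_sound a5 r h1 (by omega)
  rcases Nat.lt_or_ge r 70 with h | h1
  · exact Dat.rows_sound a6 r h1 (by omega)
  rcases Nat.lt_or_ge r 80 with h | h1
  · exact Dat.rows_sound a7 r h1 (by omega)
  rcases Nat.lt_or_ge r 90 with h | h1
  · exact Dat.rows_sound a8 r h1 (by omega)
  exact Dat.rows_sound a9 r h1 (by omega)

end Pool.Agent.H97.TA.V5.C0
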