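import Mathlib
import Pool.Agent.H97.TA.V5.Data

set_option autoImplicit false

/-!
# Rows of the check, part 1
-/

namespace Pool.Agent.H97.TA.V5.C1

open Pool.Agent.H97.TA Data

theorem a10 : D.rows 100 10 = true := by decide +kernel

theorem a11 : D.rows 110 10 = true := by decide +kernel

theorem a12 : D.rows 120 10 = true := by decide +kernel

theorem a13 : D.rows 130 10 = true := by decide +kernel

theorem a14 : D.rows 140 10 = true := by decide +kernel

theorem a15 : D.rows 150 10 = true := by decide +kernel

theorem a16 : D.rows 160 10 = true := by decide +kernel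

theorem a17 : D.rows 170 10 = true := by decide +kernel

theorem a18 : D.rows 180 10 = true := by decide +kernel

theorem a19 : D.rows 190 10 = true := by decide +kernel

theorem all (r : ℕ) (h1 : 100 ≤ r) (h2 : r < 200) : D.all r = true := by
  rcases Nat.lt_or_ge r 110 with h | h1
  · exact Dat.rows_sound a10 r h1 (by omega)
  rcases Nat.lt_or_ge r 120 with h | h1
  · exact Dat.rows_sound a11 r h1 (by omega)
  rcases Nat.lt_or_ge r 130 with h | h1
  · exact Dat.rows_sound a12 r h1 (by omega)
  rcases Nat.lt_or_ge r 140 with h | h1
  · exact Dat.rows_sound a13 r h1 (by omega)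
  rcases Nat.lt_or_ge r 150 with h | h1
  · exact Dat.rows_sound a14 r h1 (by omega)
  rcases Nat.lt_or_ge r 160 with h | h1
  · exact Dat.rows_sound a15 r h1 (by omega)
  rcases Nat.lt_or_ge r 170 with h | h1
  · exact Dat.rows_sound a16 r h1 (by omega)
  rcases Nat.lt_or_ge r 180 with h | h1
  · exact Dat.rows_sound a17 r h1 (by omega)
  rcases Nat.lt_or_ge r 190 with h | h1
  · exact Dat.rows_sound a18 r h1 (by omega)
  exact Dat.rows_sound a19 r h1 (by omega)

end Pool.Agent.H97.TA.V5.C1
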