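import Mathlib
import Pool.Agent.H97.TA.V5.Data

set_option autoImplicit false

/-!
# Rows of the check, part 2
-/

namespace Pool.Agent.H97.TA.V5.C2

open Pool.Agent.H97.TA Data

theorem a20 : D.rows 200 10 = true := by decide +kernel

theorem a21 : D.rows 210 10 = true := by decide +kernel

theorem a22 : D.rows 220 10 = true := by decide +kernel

theorem a23 : D.rows 230 10 = true := by decide +kernel

theorem a24 : D.rows 240 10 = true := by decide +kernel

theorem a25 : D.rows 250 10 = true := by decide +kernel

theorem a26 : D.rows 260 10 = true := by decide +kernel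

theorem a27 : D.rows 270 10 = true := by decide +kernel

theorem a28 : D.rows 280 10 = true := by decide +kernel

theorem a29 : D.rows 290 10 = true := by decide +kernel

theorem all (r : ℕ) (h1 : 200 ≤ r) (h2 : r < 300) : D.all r = true := by
  rcases Nat.lt_or_ge r 210 with h | h1
  · exact Dat.rows_sound a20 r h1 (by omega)
  rcases Nat.lt_or_ge r 220 with h | h1
  · exact Dat.rows_sound a21 r h1 (by omega)
  rcases Nat.lt_or_ge r 230 with h | h1
  · exact Dat.rows_sound a22 r h1 (by omega)
  rcases Nat.lt_or_ge r 240 with h | h1
  · exact Dat.rows_sound a23 r h1 (by omega)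
  rcases Nat.lt_or_ge r 250 with h | h1
  · exact Dat.rows_sound a24 r h1 (by omega)
  rcases Nat.lt_or_ge r 260 with h | h1
  · exact Dat.rows_sound a25 r h1 (by omega)
  rcases Nat.lt_or_ge r 270 with h | h1
  · exact Dat.rows_sound a26 r h1 (by omega)
  rcases Nat.lt_or_ge r 280 with h | h1
  · exact Dat.rows_sound a27 r h1 (by omega)
  rcases Nat.lt_or_ge r 290 with h | h1
  · exact Dat.rows_sound a28 r h1 (by omega)
  exact Dat.rows_sound a29 r h1 (by omega)

end Pool.Agent.H97.TA.V5.C2
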