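import Mathlib
import Pool.Agent.H97.TA.V5.Data

set_option autoImplicit false

/-!
# Rows of the check, part 3
-/

namespace Pool.Agent.H97.TA.V5.C3

open Pool.Agent.H97.TA Data

theorem a30 : D.rows 300 10 = true := by decide +kernel

theorem a31 : D.rows 310 10 = true := by decide +kernel

theorem a32 : D.rows 320 10 = true := by decide +kernel

theorem a33 : D.rows 330 10 = true := by decide +kernel

theorem a34 : D.rows 340 10 = true := by decide +kernel

theorem a35 : D.rows 350 10 = true := by decide +kernel

theorem a36 : D.rows 360 10 = true := by decide +kernel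

theorem a37 : D.rows 370 10 = true := by decide +kernel

theorem a38 : D.rows 380 10 = true := by decide +kernel

theorem a39 : D.rows 390 10 = true := by decide +kernel

theorem all (r : ℕ) (h1 : 300 ≤ r) (h2 : r < 400) : D.all r = true := by
  rcases Nat.lt_or_ge r 310 with h | h1
  · exact Dat.rows_sound a30 r h1 (by omega)
  rcases Nat.lt_or_ge r 320 with h | h1
  · exact Dat.rows_sound a31 r h1 (by omega)
  rcases Nat.lt_or_ge r 330 with h | h1
  · exact Dat.rows_sound a32 r h1 (by omega)
  rcases Nat.lt_or_ge r 340 with h | h1
  · exact Dat.rows_sound a33 r h1 (by omega)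
  rcases Nat.lt_or_ge r 350 with h | h1
  · exact Dat.rows_sound a34 r h1 (by omega)
  rcases Nat.lt_or_ge r 360 with h | h1
  · exact Dat.rows_sound a35 r h1 (by omega)
  rcases Nat.lt_or_ge r 370 with h | h1
  · exact Dat.rows_sound a36 r h1 (by omega)
  rcases Nat.lt_or_ge r 380 with h | h1
  · exact Dat.rows_sound a37 r h1 (by omega)
  rcases Nat.lt_or_ge r 390 with h | h1
  · exact Dat.rows_sound a38 r h1 (by omega)
  exact Dat.rows_sound a39 r h1 (by omega)

end Pool.Agent.H97.TA.V5.C3
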