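import Mathlib
import Pool.Agent.H97.TA.V5.Data

set_option autoImplicit false

/-!
# Rows of the check, part 4
-/

namespace Pool.Agent.H97.TA.V5.C4

open Pool.Agent.H97.TA Data

theorem a40 : D.rows 400 10 = true := by decide +kernel

theorem a41 : D.rows 410 10 = true := by decide +kernel

theorem a42 : D.rows 420 10 = true := by decide +kernel

theorem a43 : D.rows 430 10 = true := by decide +kernel

theorem a44 : D.rows 440 10 = true := by decide +kernel

theorem a45 : D.rows 450 10 = true := by decide +kernel

theorem a46 : D.rows 460 10 = true := by decide +kernel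

theorem a47 : D.rows 470 10 = true := by decide +kernel

theorem a48 : D.rows 480 10 = true := by decide +kernel

theorem a49 : D.rows 490 10 = true := by decide +kernel

theorem all (r : ℕ) (h1 : 400 ≤ r) (h2 : r < 500) : D.all r = true := by
  rcases Nat.lt_or_ge r 410 with h | h1
  · exact Dat.rows_sound a40 r h1 (by omega)
  rcases Nat.lt_or_ge r 420 with h | h1
  · exact Dat.rows_sound a41 r h1 (by omega)
  rcases Nat.lt_or_ge r 430 with h | h1
  · exact Dat.rows_sound a42 r h1 (by omega)
  rcases Nat.lt_or_ge r 440 with h | h1
  · exact Dat.rows_sound a43 r h1 (by omega)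
  rcases Nat.lt_or_ge r 450 with h | h1
  · exact Dat.rows_sound a44 r h1 (by omega)
  rcases Nat.lt_or_ge r 460 with h | h1
  · exact Dat.rows_sound a45 r h1 (by omega)
  rcases Nat.lt_or_ge r 470 with h | h1
  · exact Dat.rows_sound a46 r h1 (by omega)
  rcases Nat.lt_or_ge r 480 with h | h1
  · exact Dat.rows_sound a47 r h1 (by omega)
  rcases Nat.lt_or_ge r 490 with h | h1
  · exact Dat.rows_sound a48 r h1 (by omega)
  exact Dat.rows_sound a49 r h1 (by omega)

end Pool.Agent.H97.TA.V5.C4
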