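import Mathlib
import Pool.Agent.H97.TA.V5.Data

set_option autoImplicit false

/-!
# Rows of the check, part 5
-/

namespace Pool.Agent.H97.TA.V5.C5

open Pool.Agent.H97.TA Data

theorem a50 : D.rows 500 10 = true := by decide +kernel

theorem a51 : D.rows 510 10 = true := by decide +kernel

theorem a52 : D.rows 520 10 = true := by decide +kernel

theorem a53 : D.rows 530 10 = true := by decide +kernel

theorem a54 : D.rows 540 10 = true := by decide +kernel

theorem a55 : D.rows 550 10 = true := by decide +kernel

theorem a56 : D.rows 560 10 = true := by decide +kernel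

theorem a57 : D.rows 570 10 = true := by decide +kernel

theorem a58 : D.rows 580 10 = true := by decide +kernel

theorem a59 : D.rows 590 10 = true := by decide +kernel

theorem all (r : ℕ) (h1 : 500 ≤ r) (h2 : r < 600) : D.all r = true := by
  rcases Nat.lt_or_ge r 510 with h | h1
  · exact Dat.rows_sound a50 r h1 (by omega)
  rcases Nat.lt_or_ge r 520 with h | h1
  · exact Dat.rows_sound a51 r h1 (by omega)
  rcases Nat.lt_or_ge r 530 with h | h1
  · exact Dat.rows_sound a52 r h1 (by omega)
  rcases Nat.lt_or_ge r 540 with h | h1
  · exact Dat.rows_sound a53 r h1 (by omega)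
  rcases Nat.lt_or_ge r 550 with h | h1
  · exact Dat.rows_sound a54 r h1 (by omega)
  rcases Nat.lt_or_ge r 560 with h | h1
  · exact Dat.rows_sound a55 r h1 (by omega)
  rcases Nat.lt_or_ge r 570 with h | h1
  · exact Dat.rows_sound a56 r h1 (by omega)
  rcases Nat.lt_or_ge r 580 with h | h1
  · exact Dat.rows_sound a57 r h1 (by omega)
  rcases Nat.lt_or_ge r 590 with h | h1
  · exact Dat.rows_sound a58 r h1 (by omega)
  exact Dat.rows_sound a59 r h1 (by omega)

end Pool.Agent.H97.TA.V5.C5
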