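import Mathlib
import Pool.Agent.H97.TA.Fin
import Pool.Agent.H97.TA.V5.C0
import Pool.Agent.H97.TA.V5.C1
import Pool.Agent.H97.TA.V5.C2
import Pool.Agent.H97.TA.V5.C3
import Pool.Agent.H97.TA.V5.C4
import Pool.Agent.H97.TA.V5.C5

set_option autoImplicit false

/-!
# Conclusion of the check
-/

namespace Pool.Agent.H97.TA.V5.End

open Pool.Agent.H97.TA Pool.Agent.K7.H27.MK

theorem hall (r : ℕ) (hr : r < Data.D.L) : Data.D.all r = true := by
  have hL : Data.D.L = 600 := rfl
  rw [hL] at hr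
  have h1 : 0 ≤ r := Nat.zero_le r
  rcases Nat.lt_or_ge r 100 with h | h1
  · exact C0.all r h1 (by omega)
  rcases Nat.lt_or_ge r 200 with h | h1
  · exact C1.all r h1 (by omega)
  rcases Nat.lt_or_ge r 300 with h | h1
  · exact C2.all r h1 (by omega)
  rcases Nat.lt_or_ge r 400 with h | h1
  · exact C3.all r h1 (by omega)
  rcases Nat.lt_or_ge r 500 with h | h1
  · exact C4.all r h1 (by omega)
  exact C5.all r h1 (by omega)

theorem bl_lt (j b r : ℕ) : Data.D.bl j b r < 2 := bitA_lt _ _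

theorem avoid : Avoidable 5 := by
  have h := Dat.avoid Data.good Data.tabs_ok Data.ends_ok hall bl_lt
  have hP : Data.D.P = 5 := rfl
  rwa [hP] at h

end Pool.Agent.H97.TA.V5.End
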